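import Mathlib

/-!
# Explorer-Director games: the ratio of the path value to the distance value is unbounded

For every real `k` there are a finite connected graph `G` and a vertex `v` with
`f_p(G,v) / f_d(G,v) > k`.

Construction (parameter `N`): a centre `c`, ring vertices `q_0, ..., q_N` all joined to `c`,
cliques `D_0, ..., D_{N-1}` of size `N`, where `D_m` is joined to `q_m` and `q_{m+1}`, and
cliques (arms) `A_0, ..., A_{N-1}` with `|A_i| = N + i`, where `A_i` is joined to `q_i`.
A longest path from a vertex of `A_i` (`1 ≤ i`, `i + 1 < N`) must end in `A_{i+1}`, so Explorer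
forces a visit to all arms, while in the distance game Director stays on a geodesic with five
vertices.
-/

namespace Pool.Agent.Results.MP_5904a2_co.Unbounded

open Finset

/-- A legal reply of Director in the distance game: from `u`, when Explorer names `d`, the token
may be moved to `x` iff the distance from `u` to `x` is `d`. -/
def DistMove {V : Type} (G : SimpleGraph V) (u : V) (d : ℕ) (x : V) : Prop :=
  G.dist u x = d

/-- A legal reply of Director in the path variant: from `u`, when Explorer names `l`, the token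
may be moved to `x` iff there is a path of length `l` from `u` to `x`. -/
def PathMove {V : Type} (G : SimpleGraph V) (u : V) (l : ℕ) (x : V) : Prop :=
  ∃ p : G.Walk u x, p.IsPath ∧ p.length = l

/-- `Forces R m S u`: when the set of visited vertices is `S` and the token is at `u`, Explorer
can force that at least `m` distinct vertices are visited. Either this is already so, or Explorer
names an integer `l ≥ 1` for which some legal reply exists, and for every legal reply `x` of
Director, Explorer can force it from the new position. -/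
inductive Forces {V : Type} [DecidableEq V] (R : V → ℕ → V → Prop) (m : ℕ) :
    Finset V → V → Prop
  | done (S : Finset V) (u : V) (h : m ≤ S.card) : Forces R m S u
  | step (S : Finset V) (u : V) (l : ℕ) (hl : 1 ≤ l) (hex : ∃ x, R u l x)
      (h : ∀ x, R u l x → Forces R m (insert x S) x) : Forces R m S u

/-- The value of the game started at `v`: the largest number of distinct vertices whose visit
Explorer can force (the starting vertex counts as visited). -/
noncomputable def value {V : Type} [DecidableEq V] (R : V → ℕ → V → Prop) (v : V) : ℕ :=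
  sSup {m | Forces R m {v} v}

/-- `f_d(G,v)`. -/
noncomputable def fd {V : Type} [DecidableEq V] (G : SimpleGraph V) (v : V) : ℕ :=
  value (DistMove G) v

/-- `f_p(G,v)`. -/
noncomputable def fp {V : Type} [DecidableEq V] (G : SimpleGraph V) (v : V) : ℕ :=
  value (PathMove G) v

section General

variable {V : Type} [DecidableEq V]

theorem forces_le_card [Fintype V] {R : V → ℕ → V → Prop} {m : ℕ} {S : Finset V} {u : V}
    (h : Forces R m S u) : m ≤ Fintype.card V := by
  induction h with
  | done S u h => exact h.trans (Finset.card_le_univ S)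
  | step S u l hl hex h ih =>
    obtain ⟨x, hx⟩ := hex
    exact ih x hx

theorem forces_closed {R : V → ℕ → V → Prop} {m : ℕ} {S : Finset V} {u : V}
    (h : Forces R m S u) (W : Finset V)
    (hW : ∀ w ∈ W, ∀ l, 1 ≤ l → (∃ x, R w l x) → ∃ w' ∈ W, R w l w') :
    S ⊆ W → u ∈ W → m ≤ W.card := by
  induction h with
  | done S u h => intro hS _; exact h.trans (Finset.card_le_card hS)
  | step S u l hl hex h ih =>
    intro hS hu
    obtain ⟨w', hw', hR⟩ := hW u hu l hl hex
    exact ih w' hR (Finset.insert_subset hw' hS) hw'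

theorem le_value [Fintype V] {R : V → ℕ → V → Prop} {m : ℕ} {v : V}
    (h : Forces R m {v} v) : m ≤ value R v :=
  le_csSup ⟨Fintype.card V, fun _ hk => forces_le_card hk⟩ h

theorem value_le {R : V → ℕ → V → Prop} {v : V} (W : Finset V)
    (hW : ∀ w ∈ W, ∀ l, 1 ≤ l → (∃ x, R w l x) → ∃ w' ∈ W, R w l w') (hv : v ∈ W) :
    value R v ≤ W.card := by
  refine csSup_le ⟨0, Forces.done _ _ (Nat.zero_le _)⟩ ?_
  intro m hm
  exact forces_closed hm W hW (by simpa using hv) hv

/-- Extending a path through a clique. -/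
theorem ext_clique {G : SimpleGraph V} {u : V} (T : Finset V) :
    T.Nonempty → ∀ (x : V) (p : G.Walk u x), p.IsPath → (∀ y ∈ T, y ∉ p.support) →
      (∀ y ∈ T, G.Adj x y) → (∀ y ∈ T, ∀ z ∈ T, y ≠ z → G.Adj y z) →
      ∃ y ∈ T, ∃ r : G.Walk u y, r.IsPath ∧ r.length = p.length + T.card ∧
        ∀ z ∈ r.support, z ∈ p.support ∨ z ∈ T := by
  induction T using Finset.induction_on with
  | empty => intro h; exact absurd h (by simp)
  | insert y T hy ih =>
    intro _ x p hp hns hadj hcl
    have hxy : G.Adj x y := hadj y (by simp)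
    have hyp : y ∉ p.support := hns y (by simp)
    by_cases hT : T.Nonempty
    · obtain ⟨z, hz, r, hr, hlen, hsup⟩ := ih hT y (p.concat hxy) (hp.concat hyp hxy)
        (by
          intro z hz
          rw [SimpleGraph.Walk.support_concat]
          simp only [List.mem_append, List.mem_singleton, not_or]
          exact ⟨hns z (by simp [hz]), fun h => hy (h ▸ hz)⟩)
        (by
          intro z hz
          exact hcl y (by simp) z (by simp [hz]) (fun h => hy (h ▸ hz)))
        (by
          intro a ha b hb hab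
          exact hcl a (by simp [ha]) b (by simp [hb]) hab)
      refine ⟨z, by simp [hz], r, hr, ?_, ?_⟩
      · rw [hlen, SimpleGraph.Walk.length_concat, Finset.card_insert_of_notMem hy]; omega
      · intro a ha
        rcases hsup a ha with h | h
        · rw [SimpleGraph.Walk.support_concat] at h
          simp only [List.mem_append, List.mem_singleton] at h
          rcases h with h | h
          · exact Or.inl h
          · right; simp [h]
        · right; simp [h]
    · have hT0 : T = ∅ := Finset.not_nonempty_iff_eq_empty.mp hT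
      subst hT0
      refine ⟨y, by simp, p.concat hxy, hp.concat hyp hxy, ?_, ?_⟩
      · rw [SimpleGraph.Walk.length_concat]; simp
      · intro a ha
        rw [SimpleGraph.Walk.support_concat] at ha
        simp only [List.mem_append, List.mem_singleton] at ha
        rcases ha with h | h
        · exact Or.inl h
        · right; simp [h]

end General

/-! ## The graph -/

/-- Blocks: the centre, the ring vertices, the gadget cliques, the arm cliques. -/
abbrev Block (N : ℕ) := Unit ⊕ Fin (N + 1) ⊕ Fin N ⊕ Fin N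

@[match_pattern] abbrev bc {N : ℕ} : Block N := Sum.inl ()
@[match_pattern] abbrev bq {N : ℕ} (i : Fin (N + 1)) : Block N := Sum.inr (Sum.inl i)
@[match_pattern] abbrev bD {N : ℕ} (i : Fin N) : Block N := Sum.inr (Sum.inr (Sum.inl i))
@[match_pattern] abbrev bA {N : ℕ} (i : Fin N) : Block N := Sum.inr (Sum.inr (Sum.inr i))

/-- Size of a block. -/
def sz {N : ℕ} : Block N → ℕ
  | bc => 1
  | bq _ => 1
  | bD _ => N
  | bA i => N + i.val

/-- Adjacency between blocks (a loop means that the block is a clique). -/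
def bAdj {N : ℕ} : Block N → Block N → Prop
  | bc, bq _ => True
  | bq _, bc => True
  | bq i, bD m => i.val = m.val ∨ i.val = m.val + 1
  | bD m, bq i => i.val = m.val ∨ i.val = m.val + 1
  | bq i, bA m => i.val = m.val
  | bA m, bq i => i.val = m.val
  | bD m, bD m' => m = m'
  | bA m, bA m' => m = m'
  | _, _ => False

theorem bAdj_symm {N : ℕ} {a b : Block N} (h : bAdj a b) : bAdj b a := by
  rcases a with a | a | a | a <;> rcases b with b | b | b | b <;>
    simp_all [bAdj]

/-- Vertices. -/
abbrev Vtx (N : ℕ) := Σ b : Block N, Fin (sz b)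

/-- The graph. -/
def Gr (N : ℕ) : SimpleGraph (Vtx N) where
  Adj x y := x ≠ y ∧ bAdj x.1 y.1
  symm := ⟨fun _ _ h => ⟨h.1.symm, bAdj_symm h.2⟩⟩
  loopless := ⟨fun _ h => h.1 rfl⟩

theorem eq_of_block {N : ℕ} {b : Block N} (hb : sz b = 1) {x y : Vtx N}
    (hx : x.1 = b) (hy : y.1 = b) : x = y := by
  obtain ⟨bx, ix⟩ := x
  obtain ⟨b', iy⟩ := y
  simp only at hx hy
  subst hx
  subst hy
  congr 1
  apply Fin.ext
  have h1 := ix.isLt
  have h2 := iy.isLt
  omega

theorem card_block {N : ℕ} (b : Block N) :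
    (Finset.univ.filter (fun z : Vtx N => z.1 = b)).card = sz b := by
  have : (Finset.univ.filter (fun z : Vtx N => z.1 = b)) =
      (Finset.univ : Finset (Fin (sz b))).map ⟨Sigma.mk b, sigma_mk_injective⟩ := by
    ext ⟨b', i⟩
    simp only [Finset.mem_filter, Finset.mem_univ, true_and, Finset.mem_map,
      Function.Embedding.coeFn_mk]
    constructor
    · rintro rfl
      exact ⟨i, rfl⟩
    · rintro ⟨a, ha⟩
      exact (congrArg Sigma.fst ha).symm
  rw [this, Finset.card_map, Finset.card_univ, Fintype.card_fin]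

theorem ext_block {N : ℕ} {u x : Vtx N} (p : (Gr N).Walk u x) (hp : p.IsPath) (b : Block N)
    (hb : ∀ z ∈ p.support, z.1 ≠ b) (hadj : bAdj x.1 b) (hgood : bAdj b b ∨ sz b = 1)
    (hpos : 0 < sz b) :
    ∃ y : Vtx N, y.1 = b ∧ ∃ r : (Gr N).Walk u y, r.IsPath ∧ r.length = p.length + sz b ∧
      ∀ z ∈ r.support, z ∈ p.support ∨ z.1 = b := by
  have hne : (Finset.univ.filter (fun z : Vtx N => z.1 = b)).Nonempty := by
    rw [← Finset.card_pos, card_block]; exact hpos
  obtain ⟨y, hy, r, hr, hlen, hsup⟩ := ext_clique (G := Gr N) (u := u)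
    (Finset.univ.filter (fun z : Vtx N => z.1 = b)) hne x p hp
    (by
      intro y hy hmem
      simp only [Finset.mem_filter, Finset.mem_univ, true_and] at hy
      exact hb y hmem hy)
    (by
      intro y hy
      simp only [Finset.mem_filter, Finset.mem_univ, true_and] at hy
      refine ⟨?_, by rw [hy]; exact hadj⟩
      rintro rfl
      exact hb x (SimpleGraph.Walk.end_mem_support p) hy)
    (by
      intro y hy z hz hyz
      simp only [Finset.mem_filter, Finset.mem_univ, true_and] at hy hz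
      refine ⟨hyz, ?_⟩
      rcases hgood with h | h
      · rw [hy, hz]; exact h
      · exact absurd (eq_of_block h hy hz) hyz)
  simp only [Finset.mem_filter, Finset.mem_univ, true_and] at hy
  refine ⟨y, hy, r, hr, by rw [hlen, card_block], ?_⟩
  intro z hz
  rcases hsup z hz with h | h
  · exact Or.inl h
  · right
    simpa using h

/-- There is a path from `u` ending in block `b`, with `n` vertices, all in blocks satisfying
`P`. -/
def PB {N : ℕ} (u : Vtx N) (P : Block N → Prop) (b : Block N) (n : ℕ) : Prop :=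
  ∃ x : Vtx N, x.1 = b ∧ ∃ p : (Gr N).Walk u x, p.IsPath ∧ p.length + 1 = n ∧
    ∀ z ∈ p.support, P z.1

theorem PB.step {N : ℕ} {u : Vtx N} {P : Block N → Prop} {b : Block N} {n : ℕ}
    (h : PB u P b n) (b' : Block N) (hP : ¬ P b') (hadj : bAdj b b')
    (hgood : bAdj b' b' ∨ sz b' = 1) (hpos : 0 < sz b') :
    PB u (fun z => P z ∨ z = b') b' (n + sz b') := by
  obtain ⟨x, hx, p, hp, hlen, hsup⟩ := h
  obtain ⟨y, hy, r, hr, hl, hs⟩ := ext_block p hp b'
    (fun z hz hzb => hP (hzb ▸ hsup z hz)) (by rw [hx]; exact hadj) hgood hpos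
  refine ⟨y, hy, r, hr, by omega, ?_⟩
  intro z hz
  rcases hs z hz with h | h
  · exact Or.inl (hsup z h)
  · exact Or.inr h

theorem PB.descend {N : ℕ} (hN : 0 < N) {u : Vtx N} (lo : ℕ) : ∀ (k : ℕ) (hk : lo + k ≤ N)
    (P : Block N → Prop) (n : ℕ), PB u P (bq ⟨lo + k, by omega⟩) n →
    (∀ j : Fin (N + 1), lo ≤ j.val → j.val < lo + k → ¬ P (bq j)) →
    (∀ j : Fin N, lo ≤ j.val → j.val < lo + k → ¬ P (bD j)) →
    PB u (fun z => P z ∨ (∃ j : Fin (N + 1), lo ≤ j.val ∧ j.val < lo + k ∧ z = bq j) ∨
      (∃ j : Fin N, lo ≤ j.val ∧ j.val < lo + k ∧ z = bD j)) (bq ⟨lo, by omega⟩)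
      (n + k * (N + 1)) := by
  intro k
  induction k with
  | zero =>
    intro hk P n h _ _
    obtain ⟨x, hx, p, hp, hlen, hsup⟩ := h
    exact ⟨x, hx, p, hp, by omega, fun z hz => Or.inl (hsup z hz)⟩
  | succ k ih =>
    intro hk P n h hq hD
    have h1 := h.step (bD ⟨lo + k, by omega⟩) (hD _ (by simp) (by simp))
      (by simp only [bAdj]; right; rfl) (Or.inl (by simp [bAdj])) hN
    have h2 := h1.step (bq ⟨lo + k, by omega⟩)
      (by
        intro h
        rcases h with h | h
        · exact hq _ (by simp) (by simp) h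
        · simp at h)
      (by simp [bAdj]) (Or.inr rfl) (by simp [sz])
    have h3 := ih (by omega) _ _ h2
      (by
        intro j hj1 hj2 h
        rcases h with (h | h) | h
        · exact hq j hj1 (by omega) h
        · simp at h
        · have h' : j = ⟨lo + k, by omega⟩ := by simpa using h
          rw [h'] at hj2
          simp at hj2)
      (by
        intro j hj1 hj2 h
        rcases h with (h | h) | h
        · exact hD j hj1 (by omega) h
        · have h' : j = ⟨lo + k, by omega⟩ := by simpa using h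
          rw [h'] at hj2
          simp at hj2
        · simp at h)
    obtain ⟨x, hx, p, hp, hlen, hsup⟩ := h3
    refine ⟨x, hx, p, hp, ?_, ?_⟩
    · rw [hlen]; simp only [sz]; ring
    · intro z hz
      rcases hsup z hz with ((h | h) | h) | h | h
      · exact Or.inl h
      · right; right; exact ⟨⟨lo + k, by omega⟩, by simp, by simp, h⟩
      · right; left; exact ⟨⟨lo + k, by omega⟩, by simp, by simp, h⟩
      · obtain ⟨j, hj1, hj2, hj3⟩ := h
        right; left; exact ⟨j, hj1, by omega, hj3⟩
      · obtain ⟨j, hj1, hj2, hj3⟩ := h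
        right; right; exact ⟨j, hj1, by omega, hj3⟩

/-- From every vertex of `A_i` there is a long path ending in `A_{i+1}`. -/
theorem long_path {N : ℕ} (hN : 3 ≤ N) (i : ℕ) (hi : i + 1 < N) (u : Vtx N)
    (hu : u.1 = bA ⟨i, by omega⟩) :
    ∃ (x : Vtx N) (p : (Gr N).Walk u x), p.IsPath ∧
      p.length + 1 = 1 + (N + 1) + (N - 1) * N + (N + i) + (N + (i + 1)) := by
  -- start: all of `A_i`
  have h0 : PB u (fun z => z = bA ⟨i, by omega⟩) (bA ⟨i, by omega⟩) (N + i) := by
    have hT : ((Finset.univ.filter (fun z : Vtx N => z.1 = bA ⟨i, by omega⟩)).erase u).card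
        = N + i - 1 := by
      rw [Finset.card_erase_of_mem (by simp [hu]), card_block]
      rfl
    obtain ⟨y, hy, r, hr, hlen, hsup⟩ := ext_clique (G := Gr N) (u := u)
      ((Finset.univ.filter (fun z : Vtx N => z.1 = bA ⟨i, by omega⟩)).erase u)
      (by rw [← Finset.card_pos, hT]; omega) u SimpleGraph.Walk.nil
      SimpleGraph.Walk.IsPath.nil
      (by
        intro y hy
        simp only [Finset.mem_erase, Finset.mem_filter, Finset.mem_univ, true_and] at hy
        simpa using hy.1)
      (by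
        intro y hy
        simp only [Finset.mem_erase, Finset.mem_filter, Finset.mem_univ, true_and] at hy
        refine ⟨hy.1.symm, ?_⟩
        rw [hu, hy.2]
        simp [bAdj])
      (by
        intro y hy z hz hyz
        simp only [Finset.mem_erase, Finset.mem_filter, Finset.mem_univ, true_and] at hy hz
        refine ⟨hyz, ?_⟩
        rw [hz.2, hy.2]
        simp [bAdj])
    simp only [Finset.mem_erase, Finset.mem_filter, Finset.mem_univ, true_and] at hy
    refine ⟨y, hy.2, r, hr, ?_, ?_⟩
    · rw [hlen, hT, SimpleGraph.Walk.length_nil]; omega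
    · intro z hz
      rcases hsup z hz with h | h
      · simp at h; rw [h]; exact hu
      · simp only [Finset.mem_erase, Finset.mem_filter, Finset.mem_univ, true_and] at h
        exact h.2
  have h1 := h0.step (bq ⟨0 + i, by omega⟩) (by simp) (by simp [bAdj]) (Or.inr rfl)
    (by simp [sz])
  have h2 := PB.descend (by omega) 0 i (by omega) _ _ h1
    (by
      intro j hj1 hj2 h
      rcases h with h | h
      · simp at h
      · have h' : j = ⟨0 + i, by omega⟩ := by simpa using h
        rw [h'] at hj2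
        simp at hj2)
    (by
      intro j hj1 hj2 h
      rcases h with h | h
      · simp at h
      · simp at h)
  have h3 := h2.step bc (by
      intro h
      rcases h with (h | h) | h | h
      · simp at h
      · simp at h
      · obtain ⟨j, _, _, h⟩ := h; simp at h
      · obtain ⟨j, _, _, h⟩ := h; simp at h)
    (by simp [bAdj]) (Or.inr rfl) (by simp [sz])
  have h4 := h3.step (bq ⟨i + 1 + (N - i - 1), by omega⟩) (by
      intro h
      rcases h with ((h | h) | h | h) | h
      · simp at h
      · have h' := congrArg Fin.val (Sum.inl.inj (Sum.inr.inj h))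
        simp at h'
        omega
      · obtain ⟨j, _, hj, h⟩ := h
        have h' := congrArg Fin.val (Sum.inl.inj (Sum.inr.inj h))
        simp at h'
        omega
      · obtain ⟨j, _, _, h⟩ := h; simp at h
      · simp at h)
    (by simp [bAdj]) (Or.inr rfl) (by simp [sz])
  have h5 := PB.descend (by omega) (i + 1) (N - i - 1) (by omega) _ _ h4
    (by
      intro j hj1 hj2 h
      rcases h with (((h | h) | h | h) | h) | h
      · simp at h
      · have h' := congrArg Fin.val (Sum.inl.inj (Sum.inr.inj h))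
        simp at h'
        omega
      · obtain ⟨j', _, hj, h⟩ := h
        have h' := congrArg Fin.val (Sum.inl.inj (Sum.inr.inj h))
        omega
      · obtain ⟨j, _, _, h⟩ := h; simp at h
      · simp at h
      · have h' := congrArg Fin.val (Sum.inl.inj (Sum.inr.inj h))
        simp at h'
        omega)
    (by
      intro j hj1 hj2 h
      rcases h with (((h | h) | h | h) | h) | h
      · simp at h
      · simp at h
      · obtain ⟨j', _, hj, h⟩ := h
        simp at h
      · obtain ⟨j', _, hj, h⟩ := h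
        have h' := congrArg Fin.val (Sum.inl.inj (Sum.inr.inj (Sum.inr.inj h)))
        omega
      · simp at h
      · simp at h)
  have h6 := h5.step (bA ⟨i + 1, hi⟩) (by
      intro h
      rcases h with ((((h | h) | h | h) | h) | h) | h | h
      · have h' := congrArg Fin.val (Sum.inr.inj (Sum.inr.inj (Sum.inr.inj h)))
        simp at h'
      · simp at h
      · obtain ⟨j, _, _, h⟩ := h; simp at h
      · obtain ⟨j, _, _, h⟩ := h; simp at h
      · simp at h
      · simp at h
      · obtain ⟨j, _, _, h⟩ := h; simp at h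
      · obtain ⟨j, _, _, h⟩ := h; simp at h)
    (by simp [bAdj]) (Or.inl (by simp [bAdj])) (by simp only [sz]; omega)
  obtain ⟨x, hx, p, hp, hlen, hsup⟩ := h6
  refine ⟨x, p, hp, ?_⟩
  rw [hlen]
  simp only [sz]
  obtain ⟨M, rfl⟩ : ∃ M, N = i + 1 + (M + 1) := ⟨N - i - 2, by omega⟩
  have e1 : i + 1 + (M + 1) - i - 1 = M + 1 := by omega
  have e2 : i + 1 + (M + 1) - 1 = i + 1 + M := by omega
  rw [e1, e2]
  ring

/-! ## Upper bound on path lengths -/

/-- The sequence of vertices of a path. -/
structure PathSeq (N m : ℕ) (f : ℕ → Vtx N) : Prop where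
  inj : ∀ k ≤ m, ∀ l ≤ m, f k = f l → k = l
  adj : ∀ k < m, bAdj (f k).1 (f (k + 1)).1

theorem PathSeq.of_path {N : ℕ} {u x : Vtx N} (p : (Gr N).Walk u x) (hp : p.IsPath) :
    PathSeq N p.length p.getVert := by
  constructor
  · intro k hk l hl h
    exact hp.getVert_injOn (by simpa using hk) (by simpa using hl) h
  · intro k hk
    exact (p.adj_getVert_succ hk).2

theorem enter {N m : ℕ} {f : ℕ → Vtx N} (B : Block N) (h0 : (f 0).1 ≠ B) :
    ∀ k0, k0 ≤ m → (f k0).1 = B → ∃ s < k0, (f s).1 ≠ B ∧ (f (s + 1)).1 = B := by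
  intro k0
  induction k0 with
  | zero => intro _ h; exact absurd h h0
  | succ k ih =>
    intro hk h
    by_cases hB : (f k).1 = B
    · obtain ⟨s, hs, h1, h2⟩ := ih (by omega) hB
      exact ⟨s, by omega, h1, h2⟩
    · exact ⟨k, by omega, hB, h⟩

theorem exit {N m : ℕ} {f : ℕ → Vtx N} (B : Block N) (hm : (f m).1 ≠ B) :
    ∀ r k0, k0 + r = m → (f k0).1 = B →
      ∃ t, k0 ≤ t ∧ t < m ∧ (f t).1 = B ∧ (f (t + 1)).1 ≠ B := by
  intro r
  induction r with
  | zero =>
    intro k0 hk h
    have : k0 = m := by omega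
    exact absurd h (this ▸ hm)
  | succ r ih =>
    intro k0 hk h
    by_cases hB : (f (k0 + 1)).1 = B
    · obtain ⟨t, h1, h2, h3⟩ := ih (k0 + 1) (by omega) hB
      exact ⟨t, by omega, h2, h3⟩
    · exact ⟨k0, le_refl _, by omega, h, hB⟩

/-- The ring vertex `r` has a path neighbour in the block `B`. -/
def Touch {N : ℕ} (m : ℕ) (f : ℕ → Vtx N) (B r : Block N) : Prop :=
  ∃ k ≤ m, (f k).1 = r ∧ ((k < m ∧ (f (k + 1)).1 = B) ∨ (∃ l, k = l + 1 ∧ (f l).1 = B))

theorem touch3 {N m : ℕ} {f : ℕ → Vtx N} (hf : PathSeq N m f) (i : Fin (N + 1))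
    {B1 B2 B3 : Block N} (h12 : B1 ≠ B2) (h13 : B1 ≠ B3) (h23 : B2 ≠ B3)
    (h1 : Touch m f B1 (bq i)) (h2 : Touch m f B2 (bq i)) (h3 : Touch m f B3 (bq i)) :
    False := by
  obtain ⟨k1, hk1, hq1, h1⟩ := h1
  obtain ⟨k2, hk2, hq2, h2⟩ := h2
  obtain ⟨k3, hk3, hq3, h3⟩ := h3
  have e2 : k2 = k1 := hf.inj k2 hk2 k1 hk1 (eq_of_block (b := bq i) rfl hq2 hq1)
  have e3 : k3 = k1 := hf.inj k3 hk3 k1 hk1 (eq_of_block (b := bq i) rfl hq3 hq1)
  subst e2
  subst e3
  rcases h1 with ⟨_, h1⟩ | ⟨l1, hl1, h1⟩ <;> rcases h2 with ⟨_, h2⟩ | ⟨l2, hl2, h2⟩ <;>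
    rcases h3 with ⟨_, h3⟩ | ⟨l3, hl3, h3⟩
  · exact h12 (h1 ▸ h2)
  · exact h12 (h1 ▸ h2)
  · exact h13 (h1 ▸ h3)
  · have : l2 = l3 := by omega
    subst this
    exact h23 (h2 ▸ h3)
  · exact h23 (h2 ▸ h3)
  · have : l1 = l3 := by omega
    subst this
    exact h13 (h1 ▸ h3)
  · have : l1 = l2 := by omega
    subst this
    exact h12 (h1 ▸ h2)
  · have : l1 = l2 := by omega
    subst this
    exact h12 (h1 ▸ h2)

theorem nbr_arm {N : ℕ} {b : Block N} {j : Fin N} (h : bAdj b (bA j)) (hne : b ≠ bA j) :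
    b = bq ⟨j.val, by omega⟩ := by
  rcases b with b | b | b | b
  · simp [bAdj] at h
  · simp only [bAdj] at h
    have : b = ⟨j.val, by omega⟩ := Fin.ext h
    rw [this]
  · simp [bAdj] at h
  · simp only [bAdj] at h
    exact absurd (by rw [h]) hne

theorem nbr_gadget {N : ℕ} {b : Block N} {j : Fin N} (h : bAdj b (bD j)) (hne : b ≠ bD j) :
    b = bq ⟨j.val, by omega⟩ ∨ b = bq ⟨j.val + 1, by omega⟩ := by
  rcases b with b | b | b | b
  · simp [bAdj] at h
  · simp only [bAdj] at h
    rcases h with h | h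
    · left
      have : b = ⟨j.val, by omega⟩ := Fin.ext h
      rw [this]
    · right
      have : b = ⟨j.val + 1, by omega⟩ := Fin.ext h
      rw [this]
  · simp only [bAdj] at h
    exact absurd (by rw [h]) hne
  · simp [bAdj] at h

theorem arm_unvisited {N m : ℕ} {f : ℕ → Vtx N} (hf : PathSeq N m f) (j : Fin N)
    (h0 : (f 0).1 ≠ bA j) (hm : (f m).1 ≠ bA j) : ∀ k ≤ m, (f k).1 ≠ bA j := by
  intro k hk h
  obtain ⟨s, hs, hs1, hs2⟩ := enter (m := m) (bA j) h0 k hk h
  obtain ⟨t, ht1, ht2, ht3, ht4⟩ := exit (bA j) hm (m - k) k (by omega) h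
  have a1 := nbr_arm (hs2 ▸ hf.adj s (by omega)) hs1
  have a2 := nbr_arm (bAdj_symm (ht3 ▸ hf.adj t ht2)) ht4
  have := hf.inj s (by omega) (t + 1) (by omega) (eq_of_block (b := bq _) rfl a1 a2)
  omega

theorem gadget_touch {N m : ℕ} {f : ℕ → Vtx N} (hf : PathSeq N m f) (j : Fin N)
    (h0 : (f 0).1 ≠ bD j) (hm : (f m).1 ≠ bD j) {k : ℕ} (hk : k ≤ m) (h : (f k).1 = bD j)
    (i : Fin (N + 1)) (hi : i.val = j.val ∨ i.val = j.val + 1) :
    Touch m f (bD j) (bq i) := by
  obtain ⟨s, hs, hs1, hs2⟩ := enter (m := m) (bD j) h0 k hk h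
  obtain ⟨t, ht1, ht2, ht3, ht4⟩ := exit (bD j) hm (m - k) k (by omega) h
  have a1 := nbr_gadget (hs2 ▸ hf.adj s (by omega)) hs1
  have a2 := nbr_gadget (bAdj_symm (ht3 ▸ hf.adj t ht2)) ht4
  have hne : ∀ b : Fin (N + 1), ¬ ((f s).1 = bq b ∧ (f (t + 1)).1 = bq b) := by
    rintro b ⟨e1, e2⟩
    have := hf.inj s (by omega) (t + 1) (by omega) (eq_of_block (b := bq b) rfl e1 e2)
    omega
  have key : (f s).1 = bq i ∨ (f (t + 1)).1 = bq i := by
    rcases hi with hi | hi
    · have hi' : i = ⟨j.val, by omega⟩ := Fin.ext hi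
      rw [hi']
      rcases a1 with a1 | a1
      · exact Or.inl a1
      · rcases a2 with a2 | a2
        · exact Or.inr a2
        · exact absurd ⟨a1, a2⟩ (hne _)
    · have hi' : i = ⟨j.val + 1, by omega⟩ := Fin.ext hi
      rw [hi']
      rcases a1 with a1 | a1
      · rcases a2 with a2 | a2
        · exact absurd ⟨a1, a2⟩ (hne _)
        · exact Or.inr a2
      · exact Or.inl a1
  rcases key with h | h
  · exact ⟨s, by omega, h, Or.inl ⟨by omega, hs2⟩⟩
  · exact ⟨t + 1, by omega, h, Or.inr ⟨t, rfl, ht3⟩⟩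

theorem start_touch {N m : ℕ} {f : ℕ → Vtx N} (hf : PathSeq N m f) (j : Fin N)
    (h0 : (f 0).1 = bA j) (hm : (f m).1 ≠ bA j) :
    Touch m f (bA j) (bq ⟨j.val, by omega⟩) := by
  obtain ⟨t, ht1, ht2, ht3, ht4⟩ := exit (bA j) hm m 0 (by omega) h0
  have a2 := nbr_arm (bAdj_symm (ht3 ▸ hf.adj t ht2)) ht4
  exact ⟨t + 1, by omega, a2, Or.inr ⟨t, rfl, ht3⟩⟩

theorem end_touch {N m : ℕ} {f : ℕ → Vtx N} (hf : PathSeq N m f) (j : Fin N)
    (h0 : (f 0).1 ≠ bA j) (hm : (f m).1 = bA j) :
    Touch m f (bA j) (bq ⟨j.val, by omega⟩) := by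
  obtain ⟨s, hs, hs1, hs2⟩ := enter (m := m) (bA j) h0 m (le_refl _) hm
  have a1 := nbr_arm (hs2 ▸ hf.adj s (by omega)) hs1
  exact ⟨s, by omega, a1, Or.inl ⟨by omega, hs2⟩⟩

/-- Number of positions of the path in the block `b`. -/
def cnt {N : ℕ} (m : ℕ) (f : ℕ → Vtx N) (b : Block N) : ℕ :=
  ((Finset.range (m + 1)).filter (fun k => (f k).1 = b)).card

theorem cnt_le {N m : ℕ} {f : ℕ → Vtx N} (hf : PathSeq N m f) (b : Block N) :
    cnt m f b ≤ sz b := by
  rw [← card_block b]
  apply Finset.card_le_card_of_injOn f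
  · intro k hk
    simp only [Finset.coe_filter, Finset.mem_range, Set.mem_ofPred_eq] at hk
    simp only [Finset.coe_filter, Finset.mem_univ, true_and, Set.mem_ofPred_eq]
    exact hk.2
  · intro k hk l hl h
    simp only [Finset.coe_filter, Finset.mem_range, Set.mem_ofPred_eq] at hk hl
    exact hf.inj k (by omega) l (by omega) h

theorem cnt_zero {N m : ℕ} {f : ℕ → Vtx N} {b : Block N} (h : ∀ k ≤ m, (f k).1 ≠ b) :
    cnt m f b = 0 := by
  unfold cnt
  rw [Finset.card_eq_zero, Finset.filter_eq_empty_iff]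
  intro k hk
  simp only [Finset.mem_range] at hk
  exact h k (by omega)

theorem sum_cnt {N m : ℕ} (f : ℕ → Vtx N) :
    m + 1 = cnt m f bc + (∑ i, cnt m f (bq i) + (∑ j, cnt m f (bD j) + ∑ j, cnt m f (bA j))) := by
  have h := Finset.card_eq_sum_card_fiberwise (f := fun k => (f k).1)
    (s := Finset.range (m + 1)) (t := (Finset.univ : Finset (Block N)))
    (by intro k _; simp)
  rw [Finset.card_range] at h
  rw [h]
  rw [Fintype.sum_sum_type, Fintype.sum_sum_type, Fintype.sum_sum_type]
  simp only [Finset.univ_unique, Finset.sum_singleton]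
  rfl

theorem sum_gadgets {N m : ℕ} {f : ℕ → Vtx N} (hf : PathSeq N m f) (s : Finset (Fin N))
    (hs : ∀ j ∈ s, ∀ k ≤ m, (f k).1 ≠ bD j) :
    ∑ j, cnt m f (bD j) + s.card * N ≤ N * N := by
  have h1 : ∑ j, cnt m f (bD j) = ∑ j ∈ sᶜ, cnt m f (bD j) := by
    symm
    apply Finset.sum_subset (Finset.subset_univ _)
    intro j _ hj
    simp only [Finset.mem_compl, not_not] at hj
    exact cnt_zero (hs j hj)
  have h2 : ∑ j ∈ sᶜ, cnt m f (bD j) ≤ (sᶜ).card * N := by
    apply Finset.sum_le_card_nsmul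
    intro j _
    exact cnt_le hf (bD j)
  have h3 : (sᶜ).card + s.card = N := by
    rw [add_comm, Finset.card_add_card_compl, Fintype.card_fin]
  calc ∑ j, cnt m f (bD j) + s.card * N ≤ (sᶜ).card * N + s.card * N := by
        rw [h1]; omega
    _ = N * N := by rw [← add_mul, h3]

theorem sum_ring {N m : ℕ} {f : ℕ → Vtx N} (hf : PathSeq N m f) :
    ∑ i, cnt m f (bq i) ≤ N + 1 := by
  calc ∑ i, cnt m f (bq i) ≤ ∑ _i : Fin (N + 1), 1 :=
        Finset.sum_le_sum fun i _ => cnt_le hf (bq i)
    _ = N + 1 := by simp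

theorem sum_arms_one {N m : ℕ} {f : ℕ → Vtx N} (hf : PathSeq N m f) (i : Fin N)
    (h : ∀ j, j ≠ i → ∀ k ≤ m, (f k).1 ≠ bA j) :
    ∑ j, cnt m f (bA j) ≤ N + i.val := by
  have h1 : ∑ j, cnt m f (bA j) = cnt m f (bA i) := by
    apply Finset.sum_eq_single i
    · intro j _ hj
      exact cnt_zero (h j hj)
    · intro h; exact absurd (Finset.mem_univ _) h
  rw [h1]
  exact cnt_le hf (bA i)

theorem sum_arms_two {N m : ℕ} {f : ℕ → Vtx N} (hf : PathSeq N m f) (i i' : Fin N)
    (hne : i ≠ i') (h : ∀ j, j ≠ i → j ≠ i' → ∀ k ≤ m, (f k).1 ≠ bA j) :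
    ∑ j, cnt m f (bA j) ≤ (N + i.val) + (N + i'.val) := by
  have h1 : ∑ j, cnt m f (bA j) = ∑ j ∈ {i, i'}, cnt m f (bA j) := by
    symm
    apply Finset.sum_subset (Finset.subset_univ _)
    intro j _ hj
    simp only [Finset.mem_insert, Finset.mem_singleton, not_or] at hj
    exact cnt_zero (h j hj.1 hj.2)
  rw [h1, Finset.sum_pair hne]
  have a := cnt_le hf (bA i)
  have b := cnt_le hf (bA i')
  simp only [sz] at a b
  omega

/-- Every sufficiently long path from `A_i` ends in `A_{i+1}`. -/
theorem key {N : ℕ} (hN : 3 ≤ N) (i : ℕ) (hi1 : 1 ≤ i) (hi : i + 1 < N) {m : ℕ}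
    {f : ℕ → Vtx N} (hf : PathSeq N m f) (h0 : (f 0).1 = bA ⟨i, by omega⟩)
    (hlen : 1 + (N + 1) + (N - 1) * N + (N + i) + (N + (i + 1)) ≤ m + 1) :
    (f m).1 = bA ⟨i + 1, hi⟩ := by
  have hNN : (N - 1) * N + N = N * N := by
    obtain ⟨M, rfl⟩ : ∃ M, N = M + 1 := ⟨N - 1, by omega⟩
    simp only [Nat.add_sub_cancel]
    ring
  have hsum := sum_cnt (m := m) f
  have hc := cnt_le hf bc
  simp only [sz] at hc
  have hq := sum_ring hf
  by_cases hA : ∀ j, j ≠ (⟨i, by omega⟩ : Fin N) → (f m).1 ≠ bA j
  · -- the path does not end in another arm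
    exfalso
    have h1 := sum_arms_one hf ⟨i, by omega⟩ (fun j hj =>
      arm_unvisited hf j (by rw [h0]; intro h; exact hj (by simpa using h.symm)) (hA j hj))
    have h2 := sum_gadgets hf ∅ (by simp)
    simp only at h1
    simp at h2
    omega
  · push Not at hA
    obtain ⟨j, hji, hj⟩ := hA
    by_contra hcon
    have hjv : j.val ≠ i + 1 := by
      intro h
      apply hcon
      rw [hj]
      congr 3
      exact Fin.ext h
    have hji' : j.val ≠ i := fun h => hji (Fin.ext h)
    have h1 := sum_arms_two hf ⟨i, by omega⟩ j (Ne.symm hji) (fun l hl1 hl2 =>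
      arm_unvisited hf l (by rw [h0]; intro h; exact hl1 (by simpa using h.symm))
        (by rw [hj]; intro h; exact hl2 (by simpa using h.symm)))
    simp only at h1
    -- a missed gadget at `q_i`
    have hs := start_touch hf ⟨i, by omega⟩ h0 (by rw [hj]; simp [hji])
    have he := end_touch hf j (by rw [h0]; simpa using Ne.symm hji) hj
    have hD0 : ∀ l : Fin N, (f 0).1 ≠ bD l := by intro l; rw [h0]; simp
    have hDm : ∀ l : Fin N, (f m).1 ≠ bD l := by intro l; rw [hj]; simp
    have miss : ∀ (t : ℕ) (ht1 : 1 ≤ t) (ht2 : t < N),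
        Touch m f (bA ⟨t, ht2⟩) (bq ⟨t, by omega⟩) →
        ∃ l : Fin N, (l.val = t ∨ l.val + 1 = t) ∧ ∀ k ≤ m, (f k).1 ≠ bD l := by
      intro t ht1 ht2 hT
      by_contra hno
      push Not at hno
      obtain ⟨k1, hk1, hv1⟩ := hno ⟨t, ht2⟩ (Or.inl rfl)
      obtain ⟨k2, hk2, hv2⟩ := hno ⟨t - 1, by omega⟩ (Or.inr (by simp; omega))
      have T1 := gadget_touch hf _ (hD0 _) (hDm _) hk1 hv1 ⟨t, by omega⟩ (Or.inl rfl)
      have T2 := gadget_touch hf _ (hD0 _) (hDm _) hk2 hv2 ⟨t, by omega⟩
        (Or.inr (by simp; omega))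
      refine touch3 hf _ ?_ ?_ ?_ hT T1 T2
      · simp
      · simp
      · simp only [ne_eq, Sum.inr.injEq, Sum.inl.injEq, Fin.mk.injEq]
        omega
    obtain ⟨l1, hl1, hm1⟩ := miss i hi1 (by omega) hs
    by_cases hj0 : j.val = 0
    · have h2 := sum_gadgets hf {l1} (by
        intro l hl
        rw [Finset.mem_singleton] at hl
        rw [hl]; exact hm1)
      rw [Finset.card_singleton] at h2
      omega
    · obtain ⟨l2, hl2, hm2⟩ := miss j.val (by omega) j.isLt he
      by_cases hll : l1 = l2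
      · -- the same gadget: `j = i - 1`
        have hv : l1.val = l2.val := congrArg Fin.val hll
        have h2 := sum_gadgets hf {l1} (by
          intro l hl
          rw [Finset.mem_singleton] at hl
          rw [hl]; exact hm1)
        rw [Finset.card_singleton] at h2
        omega
      · have h2 := sum_gadgets hf {l1, l2} (by
          intro l hl
          rw [Finset.mem_insert, Finset.mem_singleton] at hl
          rcases hl with hl | hl
          · rw [hl]; exact hm1
          · rw [hl]; exact hm2)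
        rw [Finset.card_pair hll] at h2
        have := j.isLt
        omega

/-! ## The path variant: Explorer visits all arms -/

open Classical in
theorem chain {N : ℕ} (hN : 3 ≤ N) : ∀ (r i : ℕ) (_ : 1 ≤ i) (hir : i + r + 1 = N)
    (S : Finset (Vtx N)) (u : Vtx N), u.1 = bA ⟨i, by omega⟩ →
    i ≤ (S.filter (fun z => ∃ j : Fin N, j.val ≤ i ∧ z.1 = bA j)).card →
    Forces (PathMove (Gr N)) (N - 1) S u := by
  intro r
  induction r with
  | zero =>
    intro i hi hir S u _ hS
    refine Forces.done S u ?_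
    have := Finset.card_le_card (Finset.filter_subset
      (fun z : Vtx N => ∃ j : Fin N, j.val ≤ i ∧ z.1 = bA j) S)
    omega
  | succ r ih =>
    intro i hi hir S u hu hS
    obtain ⟨x, p, hp, hlen⟩ := long_path hN i (by omega) u hu
    refine Forces.step S u p.length (by omega) ⟨x, p, hp, rfl⟩ ?_
    rintro y ⟨p', hp', hlen'⟩
    have hy : y.1 = bA ⟨i + 1, by omega⟩ := by
      have := key hN i hi (by omega) (PathSeq.of_path p' hp')
        (by rw [SimpleGraph.Walk.getVert_zero]; exact hu) (by omega)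
      rwa [SimpleGraph.Walk.getVert_length] at this
    refine ih (i + 1) (by omega) (by omega) _ y hy ?_
    have hsub : insert y (S.filter (fun z => ∃ j : Fin N, j.val ≤ i ∧ z.1 = bA j)) ⊆
        (insert y S).filter (fun z => ∃ j : Fin N, j.val ≤ i + 1 ∧ z.1 = bA j) := by
      intro z hz
      rw [Finset.mem_insert] at hz
      rw [Finset.mem_filter, Finset.mem_insert]
      rcases hz with hz | hz
      · exact ⟨Or.inl hz, ⟨i + 1, by omega⟩, le_refl _, by rw [hz]; exact hy⟩
      · rw [Finset.mem_filter] at hz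
        obtain ⟨hzS, j, hj, hzj⟩ := hz
        exact ⟨Or.inr hzS, j, by omega, hzj⟩
    have hni : y ∉ S.filter (fun z => ∃ j : Fin N, j.val ≤ i ∧ z.1 = bA j) := by
      intro h
      rw [Finset.mem_filter] at h
      obtain ⟨_, j, hj, hyj⟩ := h
      rw [hy] at hyj
      have h' := congrArg Fin.val (Sum.inr.inj (Sum.inr.inj (Sum.inr.inj hyj)))
      simp only at h'
      omega
    have := Finset.card_le_card hsub
    rw [Finset.card_insert_of_notMem hni] at this
    omega

/-- The starting vertex, in the arm `A_1`. -/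
def v0 (N : ℕ) (hN : 3 ≤ N) : Vtx N := ⟨bA ⟨1, by omega⟩, ⟨0, by simp only [sz]; omega⟩⟩

theorem fp_ge {N : ℕ} (hN : 3 ≤ N) : N - 1 ≤ fp (Gr N) (v0 N hN) := by
  classical
  refine le_value (chain hN (N - 2) 1 (le_refl _) (by omega) _ _ rfl ?_)
  rw [Finset.filter_singleton, if_pos]
  · simp
  · exact ⟨⟨1, by omega⟩, le_refl _, rfl⟩

/-! ## The distance game: Director stays on a geodesic -/

/-- A block potential measuring the distance from `A_1`. -/
def pot {N : ℕ} : Block N → ℕ
  | bc => 2
  | bq j => if j.val = 1 then 1 else 3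
  | bD j => if j.val ≤ 1 then 2 else 4
  | bA j => if j.val = 1 then 0 else 4

theorem pot_step {N : ℕ} {a b : Block N} (h : bAdj a b) : pot b ≤ pot a + 1 := by
  rcases a with a | a | a | a <;> rcases b with b | b | b | b <;>
    simp only [bAdj] at h <;> simp only [pot] <;> (try subst h) <;> (try split_ifs) <;> omega

theorem pot_walk {N : ℕ} {x y : Vtx N} (p : (Gr N).Walk x y) : pot y.1 ≤ pot x.1 + p.length := by
  induction p with
  | nil => simp
  | cons h p ih =>
    have := pot_step h.2
    rw [SimpleGraph.Walk.length_cons]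
    omega

/-- The centre. -/
def ctr (N : ℕ) : Vtx N := ⟨bc, ⟨0, by simp [sz]⟩⟩

/-- The ring vertices. -/
def rng {N : ℕ} (i : Fin (N + 1)) : Vtx N := ⟨bq i, ⟨0, by simp [sz]⟩⟩

theorem adj_ctr {N : ℕ} (i : Fin (N + 1)) : (Gr N).Adj (ctr N) (rng i) :=
  ⟨by intro h; have := congrArg Sigma.fst h; simp [ctr, rng] at this, by simp [bAdj, ctr, rng]⟩

theorem near {N : ℕ} (x : Vtx N) : ∃ p : (Gr N).Walk (ctr N) x, p.length ≤ 2 := by
  obtain ⟨b, i⟩ := x
  have hA : ∀ (j : Fin (N + 1)) (b' : Block N) (k : Fin (sz b')), bAdj (bq j) b' →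
      bq j ≠ b' → (Gr N).Adj (rng j) ⟨b', k⟩ := by
    intro j b' k h hne
    refine ⟨?_, h⟩
    intro he
    exact hne (congrArg Sigma.fst he)
  rcases b with b | b | b | b
  · have : (⟨Sum.inl b, i⟩ : Vtx N) = ctr N := eq_of_block (b := bc) rfl rfl rfl
    rw [this]
    exact ⟨SimpleGraph.Walk.nil, by simp⟩
  · have : (⟨Sum.inr (Sum.inl b), i⟩ : Vtx N) = rng b := eq_of_block (b := bq b) rfl rfl rfl
    rw [this]
    exact ⟨(adj_ctr b).toWalk, by simp⟩
  · exact ⟨SimpleGraph.Walk.cons (adj_ctr ⟨b.val, by omega⟩)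
      (hA ⟨b.val, by omega⟩ (bD b) i (by simp [bAdj]) (by simp)).toWalk, by simp⟩
  · exact ⟨SimpleGraph.Walk.cons (adj_ctr ⟨b.val, by omega⟩)
      (hA ⟨b.val, by omega⟩ (bA b) i (by simp [bAdj]) (by simp)).toWalk, by simp⟩

theorem conn (N : ℕ) : (Gr N).Connected := by
  have : Nonempty (Vtx N) := ⟨ctr N⟩
  refine SimpleGraph.Connected.mk ?_
  intro x y
  obtain ⟨p, _⟩ := near x
  obtain ⟨r, _⟩ := near y
  exact ⟨p.reverse.append r⟩

theorem dist_ctr {N : ℕ} (x : Vtx N) : (Gr N).dist (ctr N) x ≤ 2 := by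
  obtain ⟨p, hp⟩ := near x
  exact (SimpleGraph.dist_le p).trans hp

theorem fd_le {N : ℕ} (hN : 3 ≤ N) : fd (Gr N) (v0 N hN) ≤ 5 := by
  set G := Gr N with hG
  set a := v0 N hN with ha
  set b : Vtx N := rng ⟨1, by omega⟩ with hb
  set c : Vtx N := ctr N with hc
  set d : Vtx N := rng ⟨2, by omega⟩ with hd
  set e : Vtx N := ⟨bA ⟨2, by omega⟩, ⟨0, by simp only [sz]; omega⟩⟩ with he
  have hconn : G.Connected := conn N
  have tri := fun x y z : Vtx N => hconn.dist_triangle (u := x) (v := y) (w := z)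
  have hab : G.Adj a b := ⟨by intro h; have := congrArg Sigma.fst h; simp [ha, hb, v0, rng] at this,
    by simp [bAdj, ha, hb, v0, rng]⟩
  have hbc : G.Adj b c := (adj_ctr _).symm
  have hcd : G.Adj c d := adj_ctr _
  have hde : G.Adj d e := ⟨by intro h; have := congrArg Sigma.fst h; simp [hd, he, rng] at this,
    by simp [bAdj, hd, he, rng]⟩
  have dab : G.dist a b = 1 := SimpleGraph.dist_eq_one_iff_adj.mpr hab
  have dbc : G.dist b c = 1 := SimpleGraph.dist_eq_one_iff_adj.mpr hbc
  have dcd : G.dist c d = 1 := SimpleGraph.dist_eq_one_iff_adj.mpr hcd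
  have dde : G.dist d e = 1 := SimpleGraph.dist_eq_one_iff_adj.mpr hde
  have dae : 4 ≤ G.dist a e := by
    obtain ⟨p, hp⟩ := (hconn.preconnected a e).exists_walk_length_eq_dist
    rw [← hp]
    have := pot_walk p
    simp only [ha, he, v0, pot] at this
    simpa using this
  have t1 := tri a b c
  have t2 := tri b c d
  have t3 := tri c d e
  have t4 := tri a c e
  have t5 := tri a b d
  have t6 := tri a d e
  have t7 := tri b c e
  have t8 := tri a b e
  have t9 := tri a c d
  have t10 := tri b d e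
  have dac : G.dist a c = 2 := by omega
  have dbd : G.dist b d = 2 := by omega
  have dce : G.dist c e = 2 := by omega
  have dad : G.dist a d = 3 := by omega
  have dbe : G.dist b e = 3 := by omega
  have dae' : G.dist a e = 4 := by omega
  have dba : G.dist b a = 1 := by rw [SimpleGraph.dist_comm]; exact dab
  have dcb : G.dist c b = 1 := by rw [SimpleGraph.dist_comm]; exact dbc
  have dca : G.dist c a = 2 := by rw [SimpleGraph.dist_comm]; exact dac
  have ddc : G.dist d c = 1 := by rw [SimpleGraph.dist_comm]; exact dcd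
  have ddb : G.dist d b = 2 := by rw [SimpleGraph.dist_comm]; exact dbd
  have dda : G.dist d a = 3 := by rw [SimpleGraph.dist_comm]; exact dad
  have ded : G.dist e d = 1 := by rw [SimpleGraph.dist_comm]; exact dde
  have dec : G.dist e c = 2 := by rw [SimpleGraph.dist_comm]; exact dce
  have deb : G.dist e b = 3 := by rw [SimpleGraph.dist_comm]; exact dbe
  have dea : G.dist e a = 4 := by rw [SimpleGraph.dist_comm]; exact dae'
  have hcard : ({a, b, c, d, e} : Finset (Vtx N)).card ≤ 5 := Finset.card_le_five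
  refine le_trans (value_le {a, b, c, d, e} ?_ (by simp)) hcard
  intro w hw l hl hx
  obtain ⟨x, hx⟩ := hx
  have hx' : G.dist w x = l := hx
  have hcx : G.dist c x ≤ 2 := dist_ctr x
  have htri := tri w c x
  simp only [Finset.mem_insert, Finset.mem_singleton] at hw
  have mk : ∀ z : Vtx N, z ∈ ({a, b, c, d, e} : Finset (Vtx N)) → G.dist w z = l →
      ∃ w' ∈ ({a, b, c, d, e} : Finset (Vtx N)), DistMove G w l w' := fun z hz h => ⟨z, hz, h⟩
  rcases hw with hw | hw | hw | hw | hw
  · rw [hw] at htri hx' mk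
    rw [hw]
    have : l ≤ 4 := by omega
    interval_cases l
    · exact mk b (by simp) dab
    · exact mk c (by simp) dac
    · exact mk d (by simp) dad
    · exact mk e (by simp) dae'
  · rw [hw] at htri hx' mk
    rw [hw]
    have : l ≤ 3 := by omega
    interval_cases l
    · exact mk a (by simp) dba
    · exact mk d (by simp) dbd
    · exact mk e (by simp) dbe
  · rw [hw] at htri hx' mk
    rw [hw]
    have : l ≤ 2 := by omega
    interval_cases l
    · exact mk b (by simp) dcb
    · exact mk a (by simp) dca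
  · rw [hw] at htri hx' mk
    rw [hw]
    have : l ≤ 3 := by omega
    interval_cases l
    · exact mk e (by simp) dde
    · exact mk b (by simp) ddb
    · exact mk a (by simp) dda
  · rw [hw] at htri hx' mk
    rw [hw]
    have : l ≤ 4 := by omega
    interval_cases l
    · exact mk d (by simp) ded
    · exact mk c (by simp) dec
    · exact mk b (by simp) deb
    · exact mk a (by simp) dea

/-- **Main theorem.** For every real `k` there are a finite connected graph `G` and a vertex `v`
with `f_p(G,v) / f_d(G,v) > k`. -/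
theorem result : ∀ k : ℝ, ∃ (V : Type) (_ : Fintype V) (_ : DecidableEq V)
    (G : SimpleGraph V) (v : V), G.Connected ∧ k < (fp G v : ℝ) / (fd G v : ℝ) := by
  intro k
  obtain ⟨M, hM⟩ := exists_nat_gt (5 * |k|)
  have hN : 3 ≤ M + 3 := by omega
  refine ⟨Vtx (M + 3), inferInstance, inferInstance, Gr (M + 3), v0 (M + 3) hN, conn _, ?_⟩
  have h1 : 1 ≤ fd (Gr (M + 3)) (v0 (M + 3) hN) :=
    le_value (Forces.done _ _ (by simp))
  have h2 := fd_le hN
  have h3 := fp_ge hN
  have h1' : (1 : ℝ) ≤ (fd (Gr (M + 3)) (v0 (M + 3) hN) : ℝ) := by exact_mod_cast h1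
  have h2' : (fd (Gr (M + 3)) (v0 (M + 3) hN) : ℝ) ≤ 5 := by exact_mod_cast h2
  have h3' : (M : ℝ) ≤ (fp (Gr (M + 3)) (v0 (M + 3) hN) : ℝ) := by
    have : M ≤ fp (Gr (M + 3)) (v0 (M + 3) hN) := by omega
    exact_mod_cast this
  rw [lt_div_iff₀ (by linarith)]
  have hk : k ≤ |k| := le_abs_self k
  have hk0 : 0 ≤ |k| := abs_nonneg k
  nlinarith

end Pool.Agent.Results.MP_5904a2_co.Unbounded
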